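import Pool.Agent.Y899.IL.Ev

set_option autoImplicit false
set_option linter.all false

namespace Pool.Agent.Y899.ILPER

open Pool.Agent.Y377.EL Pool.Agent.Y377.IL PowerSeries Cardinal

section gen

variable {F G : Type} [Field F] [CharZero F] [Field G] [CharZero G]

lemma coeff_fexp (q : ℚ) (n : ℕ) : coeff n (fexp F q) = (q : F) ^ n / (n.factorial : F) := by
  rw [fexp, coeff_mk]

lemma map_fexp (f : F →+* G) (q : ℚ) : PowerSeries.map f (fexp F q) = fexp G q := by
  ext n
  rw [coeff_map, coeff_fexp, coeff_fexp]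
  simp

lemma fexp_zero : fexp F 0 = 1 := by
  ext n
  rw [coeff_fexp, coeff_one]
  by_cases h : n = 0
  · subst h
    simp
  · simp [h]

lemma fexp_mul (p q : ℚ) : fexp F p * fexp F q = fexp F (p + q) := by
  ext n
  rw [coeff_mul, coeff_fexp]
  have h1 := Commute.add_pow' (Commute.all (p : F) (q : F)) n
  have h2 : ((p + q : ℚ) : F) = (p : F) + (q : F) := by push_cast; rfl
  rw [h2, h1, Finset.sum_div]
  refine Finset.sum_congr rfl fun x hx => ?_
  rw [coeff_fexp, coeff_fexp]
  have hx' := Finset.HasAntidiagonal.mem_antidiagonal.1 hx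
  have h3 : ((n.choose x.1 : ℕ) : F) * (x.1.factorial : F) * (x.2.factorial : F) =
      (n.factorial : F) := by
    have h4 := Nat.choose_mul_factorial_mul_factorial (n := n) (k := x.1) (by omega)
    have h5 : n - x.1 = x.2 := by omega
    rw [h5] at h4
    exact_mod_cast h4
  have h6 : (x.1.factorial : F) ≠ 0 := by exact_mod_cast Nat.factorial_ne_zero _
  have h7 : (x.2.factorial : F) ≠ 0 := by exact_mod_cast Nat.factorial_ne_zero _
  have h8 : (n.factorial : F) ≠ 0 := by exact_mod_cast Nat.factorial_ne_zero _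
  rw [nsmul_eq_mul, div_mul_div_comm, div_eq_div_iff (mul_ne_zero h6 h7) h8, ← h3]
  ring

lemma fexp_mem (q : ℚ) : fexp F q ∈ FEP F := Algebra.subset_adjoin ⟨q, rfl⟩

/-- the elements are the linear combinations of exponentials -/
lemma FEP_span (f : PowerSeries F) (hf : f ∈ FEP F) :
    ∃ c : ℚ →₀ F, f = c.sum fun q a => a • fexp F q := by
  let M : Submonoid (PowerSeries F) :=
    { carrier := {f | ∃ q : ℚ, f = fexp F q}
      mul_mem' := by
        rintro a b ⟨p, rfl⟩ ⟨q, rfl⟩
        exact ⟨p + q, fexp_mul p q⟩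
      one_mem' := ⟨0, fexp_zero.symm⟩ }
  have h1 : f ∈ Submodule.span F (Submonoid.closure {f | ∃ q : ℚ, f = fexp F q} :
      Set (PowerSeries F)) := by
    rw [← Algebra.adjoin_eq_span]
    exact hf
  have h2 : (Submonoid.closure {f | ∃ q : ℚ, f = fexp F q} : Set (PowerSeries F)) ⊆
      Set.range (fexp F) := by
    intro x hx
    have h3 : Submonoid.closure {f | ∃ q : ℚ, f = fexp F q} ≤ M :=
      Submonoid.closure_le.2 fun x hx => hx
    obtain ⟨q, hq⟩ := h3 hx
    exact ⟨q, hq.symm⟩
  have h4 := Submodule.span_mono h2 h1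
  obtain ⟨c, hc⟩ := Finsupp.mem_span_range_iff_exists_finsupp.1 h4
  exact ⟨c, hc.symm⟩

lemma map_FEP (f : F →+* G) {a : PowerSeries F} (ha : a ∈ FEP F) :
    PowerSeries.map f a ∈ FEP G := by
  induction ha using Algebra.adjoin_induction with
  | mem x hx =>
    obtain ⟨q, rfl⟩ := hx
    rw [map_fexp]
    exact fexp_mem q
  | algebraMap c =>
    have : PowerSeries.map f (algebraMap F (PowerSeries F) c) =
        algebraMap G (PowerSeries G) (f c) := by
      rw [PowerSeries.algebraMap_apply, PowerSeries.algebraMap_apply, PowerSeries.map_C]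
      rfl
    rw [this]
    exact (FEP G).algebraMap_mem _
  | add x y _ _ hx hy =>
    rw [map_add]
    exact (FEP G).add_mem hx hy
  | mul x y _ _ hx hy =>
    rw [map_mul]
    exact (FEP G).mul_mem hx hy

/-- descent of the coefficients to a subfield -/
lemma desc (a : PowerSeries F) (ha : a ∈ FEP F) : ∃ T : Finset F, ∀ F0 : Subfield F,
    (∀ t ∈ T, t ∈ F0) → ∃ a0 ∈ FEP F0, PowerSeries.map F0.subtype a0 = a := by
  classical
  induction ha using Algebra.adjoin_induction with
  | mem x hx =>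
    obtain ⟨q, rfl⟩ := hx
    exact ⟨∅, fun F0 _ => ⟨fexp F0 q, fexp_mem q, map_fexp _ q⟩⟩
  | algebraMap c =>
    refine ⟨{c}, fun F0 h => ⟨algebraMap F0 (PowerSeries F0) ⟨c, h c (by simp)⟩,
      (FEP F0).algebraMap_mem _, ?_⟩⟩
    rw [PowerSeries.algebraMap_apply, PowerSeries.algebraMap_apply, PowerSeries.map_C]
    rfl
  | add x y _ _ hx hy =>
    obtain ⟨T1, h1⟩ := hx
    obtain ⟨T2, h2⟩ := hy
    refine ⟨T1 ∪ T2, fun F0 h => ?_⟩
    obtain ⟨a1, ha1, e1⟩ := h1 F0 fun t ht => h t (Finset.mem_union_left _ ht)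
    obtain ⟨a2, ha2, e2⟩ := h2 F0 fun t ht => h t (Finset.mem_union_right _ ht)
    exact ⟨a1 + a2, (FEP F0).add_mem ha1 ha2, by rw [map_add, e1, e2]⟩
  | mul x y _ _ hx hy =>
    obtain ⟨T1, h1⟩ := hx
    obtain ⟨T2, h2⟩ := hy
    refine ⟨T1 ∪ T2, fun F0 h => ?_⟩
    obtain ⟨a1, ha1, e1⟩ := h1 F0 fun t ht => h t (Finset.mem_union_left _ ht)
    obtain ⟨a2, ha2, e2⟩ := h2 F0 fun t ht => h t (Finset.mem_union_right _ ht)
    exact ⟨a1 * a2, (FEP F0).mul_mem ha1 ha2, by rw [map_mul, e1, e2]⟩

/-- **descent of the exponential polynomials** along an embedding -/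
lemma desc_emb (f : F →+* G) (a : PowerSeries F) (h : PowerSeries.map f a ∈ FEP G) :
    a ∈ FEP F := by
  classical
  obtain ⟨c, hc⟩ := FEP_span _ h
  have hn : ∀ n : ℕ, f ((n.factorial : F) * coeff n a) = ∑ q ∈ c.support, c q * (q : G) ^ n := by
    intro n
    have h8 : (n.factorial : G) ≠ 0 := by exact_mod_cast Nat.factorial_ne_zero _
    have h1 := congrArg (coeff n) hc
    rw [coeff_map, Finsupp.sum, map_sum] at h1
    rw [map_mul, h1, map_natCast, Finset.mul_sum]
    refine Finset.sum_congr rfl fun q _ => ?_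
    rw [PowerSeries.coeff_smul, coeff_fexp, smul_eq_mul]
    field_simp
  -- Lagrange polynomials
  have hL : ∀ q ∈ c.support, ∃ b : F, f b = c q := by
    intro q hq
    let L := Lagrange.basis c.support (id : ℚ → ℚ) q
    have h1 : ∀ r ∈ c.support, L.eval r = if r = q then 1 else 0 := by
      intro r hr
      by_cases h : r = q
      · subst h
        rw [if_pos rfl]
        exact Lagrange.eval_basis_self (Function.injective_id.injOn) hr
      · rw [if_neg h]
        exact Lagrange.eval_basis_of_ne (v := (id : ℚ → ℚ)) (Ne.symm h) hr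
    refine ⟨∑ n ∈ Finset.range (L.natDegree + 1), (L.coeff n : F) *
      ((n.factorial : F) * coeff n a), ?_⟩
    rw [map_sum]
    have h2 : ∀ r ∈ c.support, ∑ n ∈ Finset.range (L.natDegree + 1), (L.coeff n : G) * (r : G) ^ n =
        if r = q then 1 else 0 := by
      intro r hr
      have h3 := h1 r hr
      rw [Polynomial.eval_eq_sum_range] at h3
      have h4 := congrArg (fun x : ℚ => (x : G)) h3
      push_cast at h4
      rw [h4]
      split_ifs <;> simp
    calc ∑ n ∈ Finset.range (L.natDegree + 1), f ((L.coeff n : F) *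
          ((n.factorial : F) * coeff n a)) =
        ∑ n ∈ Finset.range (L.natDegree + 1), (L.coeff n : G) *
          ∑ r ∈ c.support, c r * (r : G) ^ n := by
          refine Finset.sum_congr rfl fun n _ => ?_
          rw [map_mul, hn, map_ratCast]
      _ = ∑ r ∈ c.support, c r * ∑ n ∈ Finset.range (L.natDegree + 1),
          (L.coeff n : G) * (r : G) ^ n := by
          simp only [Finset.mul_sum]
          rw [Finset.sum_comm]
          refine Finset.sum_congr rfl fun r _ => Finset.sum_congr rfl fun n _ => ?_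
          ring
      _ = ∑ r ∈ c.support, c r * (if r = q then 1 else 0) :=
          Finset.sum_congr rfl fun r hr => by rw [h2 r hr]
      _ = c q := by
          simp only [mul_ite, mul_one, mul_zero]
          rw [Finset.sum_ite_eq' c.support q, if_pos hq]
  choose! b hb using hL
  have h5 : a = ∑ q ∈ c.support, b q • fexp F q := by
    ext n
    apply f.injective
    have h8 : (n.factorial : G) ≠ 0 := by exact_mod_cast Nat.factorial_ne_zero _
    have h9 : f (coeff n a) * (n.factorial : G) = ∑ q ∈ c.support, c q * (q : G) ^ n := by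
      rw [← hn n, map_mul, map_natCast, mul_comm]
    rw [eq_comm, ← mul_left_inj' h8, h9, map_sum, map_sum, Finset.sum_mul]
    refine Finset.sum_congr rfl fun q hq => ?_
    rw [PowerSeries.coeff_smul, coeff_fexp, smul_eq_mul, map_mul, hb q hq, map_div₀, map_pow,
      map_natCast, map_ratCast]
    field_simp
  rw [h5]
  exact (FEP F).sum_mem fun q _ => (FEP F).smul_mem (fexp_mem q) _

end gen

lemma fexp_Conv (q : ℚ) : fexp ℂ q ∈ Conv := by
  rw [mem_Conv]
  intro ρ hρ
  have h1 := Real.summable_pow_div_factorial (‖(q : ℂ)‖ * ρ)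
  refine h1.congr fun m => ?_
  rw [coeff_fexp, norm_div, norm_pow, Complex.norm_natCast]
  rw [mul_pow]
  ring

lemma FEP_Conv : FEP ℂ ≤ Conv :=
  Algebra.adjoin_le (by
    rintro _ ⟨q, rfl⟩
    exact fexp_Conv q)

lemma ev_fexp (q : ℚ) : ev (fexp ℂ q) = fun z => Complex.exp (q * z) := by
  funext z
  rw [ev, Complex.exp_eq_exp_ℂ, NormedSpace.exp_eq_tsum_div]
  refine tsum_congr fun m => ?_
  rw [coeff_fexp, mul_pow]
  ring

lemma ev_mem_EP {f : PowerSeries ℂ} (hf : f ∈ FEP ℂ) : ev f ∈ EP := by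
  induction hf using Algebra.adjoin_induction with
  | mem x hx =>
    obtain ⟨q, rfl⟩ := hx
    exact Algebra.subset_adjoin ⟨q, ev_fexp q⟩
  | algebraMap c =>
    rw [ev_C]
    exact EP.algebraMap_mem c
  | add x y h1 h2 hx hy =>
    rw [ev_add (FEP_Conv h1) (FEP_Conv h2)]
    exact EP.add_mem hx hy
  | mul x y h1 h2 hx hy =>
    rw [ev_mul (FEP_Conv h1) (FEP_Conv h2)]
    exact EP.mul_mem hx hy

lemma exists_of_EP {g : ℂ → ℂ} (hg : g ∈ EP) : ∃ f ∈ FEP ℂ, ev f = g := by
  induction hg using Algebra.adjoin_induction with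
  | mem x hx =>
    obtain ⟨q, rfl⟩ := hx
    exact ⟨fexp ℂ q, fexp_mem q, ev_fexp q⟩
  | algebraMap c => exact ⟨_, (FEP ℂ).algebraMap_mem c, ev_C c⟩
  | add x y _ _ hx hy =>
    obtain ⟨a, ha, rfl⟩ := hx
    obtain ⟨b, hb, rfl⟩ := hy
    exact ⟨a + b, (FEP ℂ).add_mem ha hb, ev_add (FEP_Conv ha) (FEP_Conv hb)⟩
  | mul x y _ _ hx hy =>
    obtain ⟨a, ha, rfl⟩ := hx
    obtain ⟨b, hb, rfl⟩ := hy
    exact ⟨a * b, (FEP ℂ).mul_mem ha hb, ev_mul (FEP_Conv ha) (FEP_Conv hb)⟩

/-- integral equations with explicit coefficients -/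
lemma integral_iff {A : Type} [CommRing A] {k : Type} [Field k] [Algebra k A] (R : Subalgebra k A)
    (x : A) : IsIntegral R x ↔ ∃ (n : ℕ) (a : ℕ → A), (∀ j, a j ∈ R) ∧
      x ^ n + ∑ j ∈ Finset.range n, a j * x ^ j = 0 := by
  constructor
  · rintro ⟨P, hP, hx⟩
    refine ⟨P.natDegree, fun j => (P.coeff j : A), fun j => (P.coeff j).2, ?_⟩
    rw [Polynomial.eval₂_eq_sum_range, Finset.sum_range_succ, hP.coeff_natDegree, map_one,
      one_mul, add_comm] at hx
    exact hx
  · rintro ⟨n, a, ha, hx⟩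
    let Q : Polynomial R := ∑ j ∈ Finset.range n, Polynomial.monomial j (⟨a j, ha j⟩ : R)
    have hQ : Q.degree < n := by
      refine (Polynomial.degree_sum_le _ _).trans_lt ?_
      rw [Finset.sup_lt_iff (by exact WithBot.bot_lt_coe n)]
      intro j hj
      exact (Polynomial.degree_monomial_le j _).trans_lt
        (by exact_mod_cast Finset.mem_range.1 hj)
    refine ⟨Polynomial.X ^ n + Q, Polynomial.monic_X_pow_add hQ, ?_⟩
    rw [Polynomial.eval₂_add, Polynomial.eval₂_X_pow, Polynomial.eval₂_finsetSum]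
    rw [← hx]
    congr 1
    refine Finset.sum_congr rfl fun j _ => ?_
    rw [Polynomial.eval₂_monomial]
    rfl

theorem t_PER : S_ENT → S_EC → S_PER := by
  classical
  intro hENT hEC F _ _ k A s hA hs hint
  -- data
  choose TA hTA using fun i j => desc (A i j) (hA i j)
  choose n a ha hx using fun i => (integral_iff (FEP F) (s i)).1 (hint i)
  choose TP hTP using fun i j => desc (a i j) (ha i j)
  let T : Set F := (⋃ i, ⋃ j, (TA i j : Set F)) ∪ (⋃ i, ⋃ j, (TP i j : Set F)) ∪
    (⋃ i, Set.range fun m => coeff m (s i))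
  have hTc : T.Countable := by
    refine Set.Countable.union (Set.Countable.union ?_ ?_) ?_
    · exact Set.countable_iUnion fun i => Set.countable_iUnion fun j => (TA i j).countable_toSet
    · exact Set.countable_iUnion fun i => Set.countable_iUnion fun j => (TP i j).countable_toSet
    · exact Set.countable_iUnion fun i => Set.countable_range _
  let F0 : Subfield F := Subfield.closure T
  have hF0 : Countable F0 := by
    rw [← Cardinal.mk_le_aleph0_iff]
    refine (Subfield.cardinalMk_closure_le_max T).trans (max_le ?_ le_rfl)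
    exact Cardinal.mk_le_aleph0_iff.2 hTc.to_subtype
  have hT : ∀ t ∈ T, t ∈ F0 := fun t ht => Subfield.subset_closure ht
  choose A0 hA0 eA using fun i j => hTA i j F0 fun t ht =>
    hT t (Or.inl (Or.inl (Set.mem_iUnion.2 ⟨i, Set.mem_iUnion.2 ⟨j, ht⟩⟩)))
  choose a0 ha0 ea using fun i j => hTP i j F0 fun t ht =>
    hT t (Or.inl (Or.inr (Set.mem_iUnion.2 ⟨i, Set.mem_iUnion.2 ⟨j, ht⟩⟩)))
  let s0 : Fin k → PowerSeries F0 := fun i => PowerSeries.mk fun m =>
    ⟨coeff m (s i), hT _ (Or.inr (Set.mem_iUnion.2 ⟨i, ⟨m, rfl⟩⟩))⟩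
  have es : ∀ i, PowerSeries.map F0.subtype (s0 i) = s i := by
    intro i
    ext m
    rw [coeff_map, coeff_mk]
    rfl
  have hinj : Function.Injective (PowerSeries.map F0.subtype) :=
    PowerSeries.map_injective _ F0.subtype.injective
  obtain ⟨ι⟩ := emb_complex F0
  let t : Fin k → PowerSeries ℂ := fun i => PowerSeries.map ι (s0 i)
  let B : Fin k → Fin k → PowerSeries ℂ := fun i j => PowerSeries.map ι (A0 i j)
  have hB : ∀ i j, B i j ∈ FEP ℂ := fun i j => map_FEP ι (hA0 i j)
  -- the system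
  have hsys0 : ∀ i, PowerSeries.derivative F0 (s0 i) = ∑ j, A0 i j * s0 j := by
    intro i
    apply hinj
    rw [map_sum]
    have h1 : PowerSeries.map F0.subtype (PowerSeries.derivative F0 (s0 i)) =
        PowerSeries.derivative F (s i) := by
      ext m
      rw [coeff_map, PowerSeries.coeff_derivative, PowerSeries.coeff_derivative, coeff_mk]
      rfl
    rw [h1, hs i]
    refine Finset.sum_congr rfl fun j _ => ?_
    rw [map_mul, eA, es]
  have hrec : ∀ (m : ℕ) (i : Fin k), ((m : ℂ) + 1) * coeff (m + 1) (t i) =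
      ∑ l ∈ Finset.range (m + 1), ∑ j, coeff l (B i j) * coeff (m - l) (t j) := by
    intro m i
    have h1 := congrArg (fun x => ι (coeff m x)) (hsys0 i)
    rw [PowerSeries.coeff_derivative, map_sum, map_sum, map_mul, map_add, map_natCast,
      map_one] at h1
    have h2 : coeff (m + 1) (t i) = ι (coeff (m + 1) (s0 i)) := coeff_map _ _ _
    rw [h2, mul_comm, h1, Finset.sum_comm]
    refine Finset.sum_congr rfl fun j _ => ?_
    rw [← coeff_map, map_mul, coeff_mul,
      Finset.Nat.sum_antidiagonal_eq_sum_range_succ_mk]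
  have htC : ∀ i, t i ∈ Conv := by
    intro i
    rw [mem_Conv]
    intro ρ hρ
    have h1 := hENT k (fun m i j => coeff m (B i j)) (fun m i => coeff m (t i))
      (fun ρ hρ i j => FEP_Conv (hB i j) ρ hρ.le) hrec (ρ + 1) (by linarith) i
    refine Summable.of_nonneg_of_le (fun m => by positivity) (fun m => ?_) h1
    exact mul_le_mul_of_nonneg_left (pow_le_pow_left₀ hρ (by linarith) m) (norm_nonneg _)
  -- integrality
  have hev : ∀ i, ev (t i) ∈ EP := by
    intro i
    apply hEC _ (ev_diff (htC i))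
    rw [integral_iff]
    refine ⟨n i, fun j => ev (PowerSeries.map ι (a0 i j)), fun j =>
      ev_mem_EP (map_FEP ι (ha0 i j)), ?_⟩
    have h1 : s0 i ^ n i + ∑ j ∈ Finset.range (n i), a0 i j * s0 i ^ j = 0 := by
      apply hinj
      rw [map_zero, map_add, map_pow, map_sum, es, ← hx i]
      congr 1
      refine Finset.sum_congr rfl fun j _ => ?_
      rw [map_mul, map_pow, es, ea]
    have h2 : t i ^ n i + ∑ j ∈ Finset.range (n i), PowerSeries.map ι (a0 i j) * t i ^ j = 0 := by
      have h3 := congrArg (PowerSeries.map ι) h1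
      rw [map_zero, map_add, map_pow, map_sum] at h3
      rw [← h3]
      congr 1
      refine Finset.sum_congr rfl fun j _ => ?_
      rw [map_mul, map_pow]
    have hm : ∀ j ∈ Finset.range (n i), PowerSeries.map ι (a0 i j) * t i ^ j ∈ Conv := fun j _ =>
      Conv.mul_mem (FEP_Conv (map_FEP ι (ha0 i j))) (Conv.pow_mem (htC i) j)
    have h4 := congrArg ev h2
    rw [ev_add (Conv.pow_mem (htC i) _) (Conv.sum_mem hm), ev_zero, ev_pow (htC i),
      ev_sum _ _ hm] at h4
    rw [← h4]
    congr 1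
    refine Finset.sum_congr rfl fun j _ => ?_
    rw [ev_mul (FEP_Conv (map_FEP ι (ha0 i j))) (Conv.pow_mem (htC i) j), ev_pow (htC i)]
  intro i
  obtain ⟨g, hg, he⟩ := exists_of_EP (hev i)
  have h1 : g = t i := ev_inj (FEP_Conv hg) (htC i) he
  have h2 : s0 i ∈ FEP F0 := desc_emb ι (s0 i) (by
    show t i ∈ FEP ℂ
    rw [← h1]
    exact hg)
  rw [← es i]
  exact map_FEP _ h2

end Pool.Agent.Y899.ILPER
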