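import Pool.Agent.Y377.IL.Stm

/-!
Power series with infinite radius of convergence and their sums.
-/

set_option autoImplicit false
set_option linter.all false

namespace Pool.Agent.Y899.ILPER

open Pool.Agent.Y377.EL Pool.Agent.Y377.IL PowerSeries Cardinal

/-- power series with infinite radius of convergence -/
noncomputable def Conv : Subalgebra ℂ (PowerSeries ℂ) where
  carrier := {f | ∀ ρ : ℝ, 0 ≤ ρ → Summable fun m => ‖coeff m f‖ * ρ ^ m}
  mul_mem' := by
    intro f g hf hg ρ hρ
    have ha : ∀ f : PowerSeries ℂ, (Summable fun m => ‖coeff m f‖ * ρ ^ m) →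
        Summable fun m => ‖(‖coeff m f‖ * ρ ^ m : ℝ)‖ := fun f hf =>
      hf.congr fun m => by
        rw [Real.norm_of_nonneg (by positivity)]
    have h1 : Summable fun n => ∑ kl ∈ Finset.HasAntidiagonal.antidiagonal n,
        (‖coeff kl.1 f‖ * ρ ^ kl.1) * (‖coeff kl.2 g‖ * ρ ^ kl.2) :=
      (summable_norm_sum_mul_antidiagonal_of_summable_norm
        (f := fun m => ‖coeff m f‖ * ρ ^ m) (g := fun m => ‖coeff m g‖ * ρ ^ m)
        (ha f (hf ρ hρ)) (ha g (hg ρ hρ))).of_norm
    refine Summable.of_nonneg_of_le (fun m => by positivity) (fun m => ?_) h1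
    rw [coeff_mul]
    calc ‖∑ p ∈ Finset.HasAntidiagonal.antidiagonal m, coeff p.1 f * coeff p.2 g‖ * ρ ^ m ≤
          (∑ p ∈ Finset.HasAntidiagonal.antidiagonal m, ‖coeff p.1 f * coeff p.2 g‖) * ρ ^ m :=
          mul_le_mul_of_nonneg_right (norm_sum_le _ _) (by positivity)
      _ = _ := by
          rw [Finset.sum_mul]
          refine Finset.sum_congr rfl fun p hp => ?_
          rw [← Finset.HasAntidiagonal.mem_antidiagonal.1 hp, pow_add, norm_mul]
          ring
  add_mem' := by
    intro f g hf hg ρ hρ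
    refine Summable.of_nonneg_of_le (fun m => by positivity) (fun m => ?_)
      ((hf ρ hρ).add (hg ρ hρ))
    rw [map_add, ← add_mul]
    exact mul_le_mul_of_nonneg_right (norm_add_le _ _) (by positivity)
  algebraMap_mem' := by
    intro c ρ hρ
    refine summable_of_ne_finset_zero (s := {0}) fun m hm => ?_
    have h0 : m ≠ 0 := by simpa using hm
    have : coeff m (algebraMap ℂ (PowerSeries ℂ) c) = 0 := by
      rw [PowerSeries.algebraMap_apply, PowerSeries.coeff_C, if_neg h0]
    rw [this]
    simp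

lemma mem_Conv {f : PowerSeries ℂ} :
    f ∈ Conv ↔ ∀ ρ : ℝ, 0 ≤ ρ → Summable fun m => ‖coeff m f‖ * ρ ^ m := Iff.rfl

/-- the sum of a power series -/
noncomputable def ev (f : PowerSeries ℂ) (z : ℂ) : ℂ := ∑' m, coeff m f * z ^ m

lemma summable_ev {f : PowerSeries ℂ} (hf : f ∈ Conv) (z : ℂ) :
    Summable fun m => ‖coeff m f * z ^ m‖ := by
  have := hf ‖z‖ (norm_nonneg z)
  refine this.congr fun m => ?_
  rw [norm_mul, norm_pow]

lemma ev_add {f g : PowerSeries ℂ} (hf : f ∈ Conv) (hg : g ∈ Conv) : ev (f + g) = ev f + ev g := by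
  funext z
  show ev (f + g) z = ev f z + ev g z
  rw [ev, ev, ev, ← (summable_ev hf z).of_norm.tsum_add (summable_ev hg z).of_norm]
  refine tsum_congr fun m => ?_
  rw [map_add, add_mul]

lemma ev_mul {f g : PowerSeries ℂ} (hf : f ∈ Conv) (hg : g ∈ Conv) : ev (f * g) = ev f * ev g := by
  funext z
  show ev (f * g) z = ev f z * ev g z
  rw [ev, ev, ev, tsum_mul_tsum_eq_tsum_sum_antidiagonal_of_summable_norm
    (summable_ev hf z) (summable_ev hg z)]
  refine tsum_congr fun m => ?_
  rw [coeff_mul, Finset.sum_mul]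
  refine Finset.sum_congr rfl fun p hp => ?_
  rw [← Finset.HasAntidiagonal.mem_antidiagonal.1 hp, pow_add]
  ring

lemma ev_C (c : ℂ) : ev (algebraMap ℂ (PowerSeries ℂ) c) = algebraMap ℂ (ℂ → ℂ) c := by
  funext z
  show ev _ z = c
  rw [ev, tsum_eq_single 0]
  · rw [PowerSeries.algebraMap_apply, PowerSeries.coeff_zero_C]
    simp
  · intro m hm
    rw [PowerSeries.algebraMap_apply, PowerSeries.coeff_C, if_neg hm]
    simp

lemma ev_one : ev 1 = 1 := by
  have := ev_C 1
  rwa [map_one, map_one] at this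

lemma ev_zero : ev 0 = 0 := by
  have := ev_C 0
  rwa [map_zero, map_zero] at this

lemma ev_pow {f : PowerSeries ℂ} (hf : f ∈ Conv) (n : ℕ) : ev (f ^ n) = ev f ^ n := by
  induction n with
  | zero => rw [pow_zero, pow_zero, ev_one]
  | succ n ih => rw [pow_succ, pow_succ, ev_mul (Conv.pow_mem hf n) hf, ih]

lemma ev_sum {ι : Type*} (s : Finset ι) (f : ι → PowerSeries ℂ) (hf : ∀ i ∈ s, f i ∈ Conv) :
    ev (∑ i ∈ s, f i) = ∑ i ∈ s, ev (f i) := by
  classical
  induction s using Finset.induction_on with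
  | empty => rw [Finset.sum_empty, Finset.sum_empty, ev_zero]
  | insert a s ha ih =>
    rw [Finset.sum_insert ha, Finset.sum_insert ha,
      ev_add (hf a (Finset.mem_insert_self a s))
        (Conv.sum_mem fun i hi => hf i (Finset.mem_insert_of_mem hi)),
      ih fun i hi => hf i (Finset.mem_insert_of_mem hi)]

lemma hasSeries {f : PowerSeries ℂ} (hf : f ∈ Conv) :
    HasFPowerSeriesOnBall (ev f) (FormalMultilinearSeries.ofScalars ℂ fun m => coeff m f) 0 ⊤ := by
  have h1 : (FormalMultilinearSeries.ofScalars ℂ fun m => coeff m f).radius = ⊤ := by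
    apply FormalMultilinearSeries.radius_eq_top_of_summable_norm
    intro r
    refine (hf r r.2).congr fun m => ?_
    rw [FormalMultilinearSeries.ofScalars_norm]
  have h2 := (FormalMultilinearSeries.ofScalars ℂ fun m => coeff m f).hasFPowerSeriesOnBall
    (by rw [h1]; exact ENNReal.zero_lt_top)
  rw [h1] at h2
  have h3 : (FormalMultilinearSeries.ofScalars ℂ fun m => coeff m f).sum = ev f := by
    funext z
    have := FormalMultilinearSeries.ofScalars_sum_eq (E := ℂ) (fun m => coeff m f) z
    rw [FormalMultilinearSeries.ofScalarsSum] at this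
    rw [this, ev]
    refine tsum_congr fun m => ?_
    rw [smul_eq_mul]
  rwa [h3] at h2

lemma ev_diff {f : PowerSeries ℂ} (hf : f ∈ Conv) : Differentiable ℂ (ev f) := by
  have h1 := (hasSeries hf).differentiableOn
  intro z
  have h2 := h1 z (by simp)
  simpa using h2.differentiableAt (by simp)

lemma ev_inj {f g : PowerSeries ℂ} (hf : f ∈ Conv) (hg : g ∈ Conv) (h : ev f = ev g) : f = g := by
  have hfg : f - g ∈ Conv := Conv.sub_mem hf hg
  have h1 : ev (f - g) = 0 := by
    have h2 := ev_add hfg hg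
    rw [sub_add_cancel, h] at h2
    have h3 : ev g + 0 = ev (f - g) + ev g := by rw [add_zero]; exact h2
    rw [add_comm (ev (f - g))] at h3
    exact (add_left_cancel h3).symm
  have h2 := hasSeries hfg
  rw [h1] at h2
  have h3 := h2.hasFPowerSeriesAt.eq_zero
  rw [FormalMultilinearSeries.ofScalars_series_eq_zero] at h3
  rw [← sub_eq_zero]
  ext m
  exact congrFun h3 m

theorem emb_complex (κ : Type) [Field κ] [CharZero κ] [Countable κ] : Nonempty (κ →+* ℂ) := by
  let R := MvPolynomial ℝ κ
  let K := FractionRing R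
  let M := AlgebraicClosure K
  have hR : #R = 𝔠 := by
    rw [MvPolynomial.cardinalMk_eq_max, Cardinal.mk_real]
    have h1 : #κ ≤ ℵ₀ := Cardinal.mk_le_aleph0
    have h2 : (ℵ₀ : Cardinal.{0}) ≤ 𝔠 := Cardinal.aleph0_le_continuum
    rw [max_eq_right (h1.trans h2), max_eq_left h2]
  have hK : #K = 𝔠 := by
    rw [← hR]
    exact IsFractionRing.cardinalMk R K
  have hM : #M = 𝔠 := by
    apply le_antisymm
    · have h1 := Algebra.IsAlgebraic.cardinalMk_le_max K M
      rw [hK, max_eq_left Cardinal.aleph0_le_continuum] at h1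
      exact h1
    · rw [← hK]
      exact Cardinal.mk_le_of_injective (algebraMap K M).injective
  have hch : CharZero M := by
    have h1 : CharZero R := by infer_instance
    have h2 : CharZero K := IsFractionRing.charZero R
    infer_instance
  have h3 : Nonempty (M ≃ ℂ) := by
    rw [← Cardinal.eq, hM, Cardinal.mk_complex]
  obtain ⟨e⟩ := IsAlgClosed.ringEquiv_of_equiv_of_charZero
    (by rw [hM]; exact Cardinal.aleph0_lt_continuum) h3
  exact ⟨e.toRingHom.comp ((algebraMap K M).comp ((algebraMap R K).comp MvPolynomial.C))⟩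

end Pool.Agent.Y899.ILPER
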